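import Pool.Agent.Helper68.VN.GoalsN
import Pool.Agent.Helper65.SG.NQN

/-!
# PG-NNB (MP_a41896_nt, project HC): naturality of the auxiliary function
-/

set_option autoImplicit false

namespace Pool.Agent.Helper65.VN.NNB

open WeierstrassCurve
open Pool.Agent.Helper42.SG Pool.Agent.Helper65.SG Pool.Agent.Helper65.SGT
open Pool.Agent.Helper68.VN

theorem bc_mapS {K : Type} [Field K] {A A' : Type} [CommRing A] [CommRing A'] [Algebra K A]
    [Algebra K A'] (φ : A →ₐ[K] A') {σ : Type} (W : σ → WeierstrassCurve.Affine K) (i : σ) :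
    Bc (φ : A →+* A') (mapS A W i) (mapS A' W i) := by
  unfold mapS
  refine ⟨?_, ?_, ?_, ?_⟩
  · rw [WeierstrassCurve.map_b₂, WeierstrassCurve.map_b₂]
    exact φ.commutes _
  · rw [WeierstrassCurve.map_b₄, WeierstrassCurve.map_b₄]
    exact φ.commutes _
  · rw [WeierstrassCurve.map_b₆, WeierstrassCurve.map_b₆]
    exact φ.commutes _
  · rw [WeierstrassCurve.map_b₈, WeierstrassCurve.map_b₈]
    exact φ.commutes _

theorem t_NNB : Pool.Agent.Helper68.VN.NNB := by
  intro K _ σ _ _ W n M δ e c A A' _ _ _ _ φ X Ψ X0 Ψ0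
  unfold P0B PB
  rw [map_sum]
  refine Finset.sum_congr rfl fun α _ => ?_
  rw [map_mul, map_mul, map_prod, map_prod, φ.commutes]
  congr 1
  · congr 1
    refine Finset.prod_congr rfl fun j _ => ?_
    unfold blkB
    rw [map_prod]
    refine Finset.prod_congr rfl fun i _ => ?_
    have h1 := law_nat (bc_mapS φ W i) (e j) false (X j i) (X0 i) (Ψ j i * Ψ0 i)
    have h6 : φ (law (mapS A W i) (e j) false (X j i) (X0 i) (Ψ j i * Ψ0 i)).1 =
        (law (mapS A' W i) (e j) false (φ (X j i)) (φ (X0 i)) (φ (Ψ j i) * φ (Ψ0 i))).1 := by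
      rw [← map_mul φ]
      exact h1.1
    have h7 : φ (law (mapS A W i) (e j) false (X j i) (X0 i) (Ψ j i * Ψ0 i)).2 =
        (law (mapS A' W i) (e j) false (φ (X j i)) (φ (X0 i)) (φ (Ψ j i) * φ (Ψ0 i))).2 := by
      rw [← map_mul φ]
      exact h1.2
    rw [map_mul, map_mul, map_pow, map_pow, map_pow, h6, h7]
  · refine Finset.prod_congr rfl fun i _ => ?_
    rw [map_pow]

end Pool.Agent.Helper65.VN.NNB
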