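import Pool.Agent.Helper68.VN.GoalsT
import Pool.Agent.Helper65.SG.Tay

/-!
# PG-TAYX (MP_a41896_nt, project HC): Taylor expansions with their norms
-/

set_option autoImplicit false

namespace Pool.Agent.Helper65.VN.TAYX

open WeierstrassCurve Height
open Pool.Agent.Helper29.BL Pool.Agent.Helper92.Ru Pool.Agent.Helper42.SG Pool.Agent.Helper65.SG
open Pool.Agent.Helper68.VN

section mono

variable {K : Type} [Field K] {σ : Type}

lemma rpw_mono {r r' : σ → ℝ} (h0 : ∀ i, 0 < r i) (h : ∀ i, r i ≤ r' i) (α : σ →₀ ℕ) :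
    rpw r α ≤ rpw r' α :=
  Finset.prod_le_prod (fun i _ => (pow_pos (h0 i) _).le) fun i _ =>
    pow_le_pow_left₀ (h0 i).le (h i) _

lemma nps_mono {v : AbsoluteValue K ℝ} {r r' : σ → ℝ} (h0 : ∀ i, 0 < r i) (h : ∀ i, r i ≤ r' i)
    {f : MvPowerSeries σ K} {T : ℝ} (hf : NPS v r' f T) : NPS v r f T := by
  refine ⟨hf.1, fun hv α => ?_, fun hv S => ?_⟩
  · exact (mul_le_mul_of_nonneg_left (rpw_mono h0 h α) (v.nonneg _)).trans (hf.2.1 hv α)
  · exact (Finset.sum_le_sum fun α _ =>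
      mul_le_mul_of_nonneg_left (rpw_mono h0 h α) (v.nonneg _)).trans (hf.2.2 hv S)

end mono

section consts

variable {K : Type} [Field K] {σ : Type} [Fintype σ]

/-- the product of the `bet` of the curves -/
noncomputable def bP (W : σ → Affine K) (v : AbsoluteValue K ℝ) : ℝ := ∏ i, bet (W i) v

lemma one_le_bP (W : σ → Affine K) (v : AbsoluteValue K ℝ) : 1 ≤ bP W v := by
  classical
  unfold bP
  exact Finset.prod_induction _ (fun x : ℝ => 1 ≤ x)
    (fun a b ha hb => one_le_mul_of_one_le_of_one_le ha hb) le_rfl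
    fun i _ => one_le_bet (W i) v

lemma bet_le_bP (W : σ → Affine K) (v : AbsoluteValue K ℝ) (i : σ) : bet (W i) v ≤ bP W v := by
  classical
  unfold bP
  rw [← Finset.mul_prod_erase Finset.univ (fun i => bet (W i) v) (Finset.mem_univ i)]
  refine le_mul_of_one_le_right (bet_pos _ _).le ?_
  exact Finset.prod_induction _ (fun x : ℝ => 1 ≤ x)
    (fun a b ha hb => one_le_mul_of_one_le_of_one_le ha hb) le_rfl
    fun i _ => one_le_bet (W i) v

/-- the place constant of `TAYX` -/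
noncomputable def BX (W : σ → Affine K) (v : AbsoluteValue K ℝ) : ℝ := c2 v ^ 10 * bP W v

end consts

theorem PlC_BX {K : Type} [Field K] [NumberField K] {σ : Type} [Fintype σ] (W : σ → Affine K) :
    PlC (BX W) := by
  refine ⟨fun v => one_le_mul_of_one_le_of_one_le (one_le_pow₀ (one_le_c2 v))
    (one_le_bP W v), ?_⟩
  have h1 : FS (K := K) fun v => (10 : ℝ) * Real.log (cst v 2) :=
    (FS_log_cst (K := K) 2).const_mul 10
  have h2 : FS (K := K) fun v => ∑ i : σ, Real.log (bet (W i) v) :=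
    FS.sum Finset.univ fun i _ => FS_log_bet (W i)
  refine (h1.add h2).mono fun v hv h => ?_
  rw [BX, Real.log_mul (by have := one_le_c2 v; positivity)
    (by have := one_le_bP W v; positivity), Real.log_pow, bP,
    Real.log_prod fun i _ => (bet_pos (W i) v).ne']
  exact_mod_cast h

theorem t_TAYX : TAYX := by
  classical
  intro K _ _ σ _ W
  refine ⟨BX W, PlC_BX W, fun n ξ ψ hpt => ?_⟩
  have hex : ∀ h : Fin n × σ, ∃ P : MvPowerSeries (Fin n × σ) K,
      P ^ 2 = Bf ((W h.2).map (algebraMap K (MvPowerSeries (Fin n × σ) K)))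
        (MvPowerSeries.C (ξ h.1 h.2) +
          MvPowerSeries.C (4 * ψ h.1 h.2 ^ 2) * MvPowerSeries.X h) ∧
      MvPowerSeries.constantCoeff P = ψ h.1 h.2 ∧
      ∀ (v : AbsoluteValue K ℝ) (r : Fin n × σ → ℝ) (β : ℝ), (∀ i, 0 < r i) →
        bet (W h.2) v ≤ β →
        r h = 1 / (c2 v ^ 10 * β * Mv v (ξ h.1 h.2) ^ 2) →
        NPS v r (MvPowerSeries.C (ξ h.1 h.2) +
          MvPowerSeries.C (4 * ψ h.1 h.2 ^ 2) * MvPowerSeries.X h) (c2 v * Mv v (ξ h.1 h.2)) ∧
        NPS v r P (c2 v ^ 10 * β * Mv v (ξ h.1 h.2) ^ 2) :=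
    fun h => tay_point (W h.2) h (ξ h.1 h.2) (ψ h.1 h.2) (hpt h.1 h.2).1
  choose P hP1 hP2 hP3 using hex
  refine ⟨fun j i => MvPowerSeries.C (ξ j i) +
    MvPowerSeries.C (4 * ψ j i ^ 2) * MvPowerSeries.X (j, i), fun j i => P (j, i),
    ⟨fun j i => hP1 (j, i), fun j i => rfl, fun j i => hP2 (j, i)⟩, ?_⟩
  intro v r hr j i
  have hr' : ∀ h : Fin n × σ, 0 < 1 / (BX W v * Mv v (ξ h.1 h.2) ^ 2) := by
    intro h
    have h1 := (PlC_BX W).one_le v
    have h2 := Mv_pos v (ξ h.1 h.2)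
    positivity
  have h0 := hP3 (j, i) v (fun h => 1 / (BX W v * Mv v (ξ h.1 h.2) ^ 2)) (bP W v) hr'
    (bet_le_bP W v i) rfl
  have hm : ∀ {f : MvPowerSeries (Fin n × σ) K} {T : ℝ},
      NPS v (fun h => 1 / (BX W v * Mv v (ξ h.1 h.2) ^ 2)) f T → NPS v r f T :=
    fun hf => nps_mono (fun h => (hr h).1) (fun h => (hr h).2) hf
  refine ⟨(nfr_nps (K := K) v fun h => (hr h).1).mono _ _ _ (hm h0.1) ?_, hm h0.2⟩
  refine mul_le_mul_of_nonneg_right ?_ (Mv_pos v _).le
  have h1 := one_le_c2 v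
  have h2 := one_le_bP W v
  calc c2 v ≤ c2 v ^ 10 := le_self_pow₀ h1 (by norm_num)
    _ ≤ c2 v ^ 10 * bP W v := le_mul_of_one_le_right (by positivity) h2

end Pool.Agent.Helper65.VN.TAYX
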